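import Pool.Agent.N669.CQ.Stm

/-!
# Project CQ, part MID (helper51): the midpoints of the sides of a minimal quadrilateral
-/

set_option autoImplicit false

namespace Pool.Agent.N51.CQ

open Pool.Agent.N669.CQ

theorem ar_rot (a b c d : P) : ar b c d a = ar a b c d := by
  unfold ar cr
  simp only [Prod.fst_sub, Prod.snd_sub]
  ring

theorem ci_rot {K : Set P} {a b c d : P} (h : Ci K a b c d) : Ci K b c d a :=
  ⟨⟨h.1.tb, h.1.tc, h.1.td, h.1.ta⟩, ⟨h.2.bc, h.2.cd, h.2.da, h.2.ab⟩⟩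

theorem mi_rot {K : Set P} {a b c d : P} (h : Mi K a b c d) : Mi K b c d a :=
  ⟨ci_rot h.1, fun a' b' c' d' h' => by
    rw [ar_rot]
    exact h.2 a' b' c' d' h'⟩

theorem mid_ab (h : S_PL) {K : Set P} (hK : Bd K) {a b c d : P} (hM : Mi K a b c d) :
    md a b ∈ K := by
  by_contra hm
  obtain ⟨f, u, hfu, hfK⟩ := geometric_hahn_banach_point_closed hK.conv hK.comp.isClosed hm
  have hf : ∀ x : P, f x = f ((1 : ℝ), (0 : ℝ)) * x.1 + f ((0 : ℝ), (1 : ℝ)) * x.2 := by
    intro x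
    have e : x = x.1 • ((1 : ℝ), (0 : ℝ)) + x.2 • ((0 : ℝ), (1 : ℝ)) := by
      ext <;> simp
    conv_lhs => rw [e]
    rw [map_add, map_smul, map_smul, smul_eq_mul, smul_eq_mul]
    ring
  have h0 : (f ((1 : ℝ), (0 : ℝ)) * a.1 + f ((0 : ℝ), (1 : ℝ)) * a.2 + -u) +
      (f ((1 : ℝ), (0 : ℝ)) * b.1 + f ((0 : ℝ), (1 : ℝ)) * b.2 + -u) < 0 := by
    have h1 := hfu
    rw [hf] at h1
    unfold md at h1
    simp only at h1
    linarith
  obtain ⟨s, t, ε, l, hs, ht, hε, hl, hT, har, hx⟩ := h a b c d hM.1.1 _ _ _ h0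
  have hCi : Ci K (a + s • (d - a)) (b + t • (c - b)) c d := by
    refine ⟨hT, ⟨?_, ?_, hM.1.2.cd, ?_⟩⟩
    · intro k hk
      rw [hx k]
      have h1 := hM.1.2.ab k hk
      have h2 := hfK k hk
      rw [hf] at h2
      have h3 : 0 ≤ ε * (f ((1 : ℝ), (0 : ℝ)) * k.1 + f ((0 : ℝ), (1 : ℝ)) * k.2 + -u) :=
        mul_nonneg hε.le (by linarith)
      exact mul_nonneg hl.le (add_nonneg h1 h3)
    · intro k hk
      have h1 := hM.1.2.bc k hk
      have e : cr (c - (b + t • (c - b))) (k - (b + t • (c - b))) = (1 - t) * cr (c - b) (k - b) := by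
        unfold cr
        simp only [Prod.fst_sub, Prod.snd_sub, Prod.fst_add, Prod.snd_add, Prod.smul_fst,
          Prod.smul_snd, smul_eq_mul]
        ring
      rw [e]
      exact mul_nonneg (by linarith) h1
    · intro k hk
      have h1 := hM.1.2.da k hk
      have e : cr (a + s • (d - a) - d) (k - d) = (1 - s) * cr (a - d) (k - d) := by
        unfold cr
        simp only [Prod.fst_sub, Prod.snd_sub, Prod.fst_add, Prod.snd_add, Prod.smul_fst,
          Prod.smul_snd, smul_eq_mul]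
        ring
      rw [e]
      exact mul_nonneg (by linarith) h1
  exact absurd (hM.2 _ _ _ _ hCi) (not_le.2 har)

/-- **CQ/MID** -/
theorem t_MID (h : S_PL) : S_MID := by
  intro K hK a b c d hM
  exact ⟨mid_ab h hK hM, mid_ab h hK (mi_rot hM), mid_ab h hK (mi_rot (mi_rot hM)),
    mid_ab h hK (mi_rot (mi_rot (mi_rot hM)))⟩

end Pool.Agent.N51.CQ
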